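import Pool.Agent.P.MP_54474a_lc.Defs
import Pool.Agent.Lib.Helper43.CompFP

namespace Pool.Agent.P.MP_54474a_lc

open Filter Set Topology Pool.Agent.Lib.Helper43

attribute [local irreducible] Computable

/-! ### Segments and cylinders -/

@[simp] theorem seg_length (x : ℕ → Bool) (n : ℕ) : (seg x n).length = n := by simp [seg]

theorem seg_getElem? (x : ℕ → Bool) {n i : ℕ} (h : i < n) : (seg x n)[i]? = some (x i) := by
  simp [seg, h]

theorem seg_getD (x : ℕ → Bool) {n i : ℕ} (h : i < n) : (seg x n).getD i false = x i := by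
  simp [List.getD_eq_getElem?_getD, seg_getElem? x h]

theorem seg_take (x : ℕ → Bool) (n m : ℕ) : (seg x n).take m = seg x (min m n) := by
  simp [seg, ← List.map_take, List.take_range]

theorem seg_take_le (x : ℕ → Bool) {n m : ℕ} (h : m ≤ n) : (seg x n).take m = seg x m := by
  rw [seg_take, min_eq_left h]

theorem seg_eq_iff {x y : ℕ → Bool} {n : ℕ} : seg x n = seg y n ↔ ∀ i < n, x i = y i := by
  simp [seg]

/-- The point `σ 0 0 0 ...`. -/
def pt (σ : List Bool) : ℕ → Bool := fun i => σ.getD i false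

theorem seg_pt (σ : List Bool) : seg (pt σ) σ.length = σ := by
  apply List.ext_getElem (by simp)
  intro i h1 h2
  simp [seg, pt, List.getD_eq_getElem?_getD, List.getElem?_eq_getElem h2]

/-- The cylinder of a string. -/
def cyl (σ : List Bool) : Set (ℕ → Bool) := {x | seg x σ.length = σ}

theorem mem_cyl_seg {x y : ℕ → Bool} {n : ℕ} : y ∈ cyl (seg x n) ↔ ∀ i < n, y i = x i := by
  simp [cyl, seg_eq_iff]

theorem self_mem_cyl (x : ℕ → Bool) (n : ℕ) : x ∈ cyl (seg x n) := mem_cyl_seg.2 fun _ _ => rfl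

theorem pt_mem_cyl (σ : List Bool) : pt σ ∈ cyl σ := seg_pt σ

theorem cyl_seg_anti (x : ℕ → Bool) {m n : ℕ} (h : m ≤ n) : cyl (seg x n) ⊆ cyl (seg x m) :=
  fun _ hy => mem_cyl_seg.2 fun i hi => mem_cyl_seg.1 hy i (by omega)

theorem cyl_eq_of_mem {σ : List Bool} {x : ℕ → Bool} (h : x ∈ cyl σ) :
    cyl σ = cyl (seg x σ.length) := by
  rw [show seg x σ.length = σ from h]

theorem cyl_seg_eq (x : ℕ → Bool) (n : ℕ) : cyl (seg x n) = PiNat.cylinder x n := by
  ext y; rw [mem_cyl_seg, PiNat.mem_cylinder_iff]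

theorem isOpen_cyl (σ : List Bool) : IsOpen (cyl σ) := by
  rw [cyl_eq_of_mem (pt_mem_cyl σ), cyl_seg_eq]; exact PiNat.isOpen_cylinder _ _ _

theorem mem_nhds_iff_cyl {s : Set (ℕ → Bool)} {x : ℕ → Bool} :
    s ∈ 𝓝 x ↔ ∃ n, cyl (seg x n) ⊆ s := by
  constructor
  · intro h
    obtain ⟨t, ⟨y, n, rfl⟩, hx, hs⟩ :=
      (PiNat.isTopologicalBasis_cylinders (fun _ : ℕ => Bool)).mem_nhds_iff.1 h
    refine ⟨n, ?_⟩
    rw [cyl_seg_eq, PiNat.mem_cylinder_iff_eq.1 hx]; exact hs
  · rintro ⟨n, hn⟩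
    exact mem_of_superset ((isOpen_cyl _).mem_nhds (self_mem_cyl x n)) hn

theorem mem_interior_iff_cyl {s : Set (ℕ → Bool)} {x : ℕ → Bool} :
    x ∈ interior s ↔ ∃ n, cyl (seg x n) ⊆ s := by
  rw [mem_interior_iff_mem_nhds, mem_nhds_iff_cyl]

theorem isClosed_cyl (σ : List Bool) : IsClosed (cyl σ) := by
  rw [← isOpen_compl_iff, isOpen_iff_mem_nhds]
  intro x hx
  refine mem_nhds_iff_cyl.2 ⟨σ.length, fun y hy hy' => hx ?_⟩
  have h1 : seg y σ.length = seg x σ.length := seg_eq_iff.2 (mem_cyl_seg.1 hy)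
  exact h1.symm.trans hy'

theorem isClosed_paths (T : List Bool → Prop) : IsClosed (paths T) := by
  rw [← isOpen_compl_iff, isOpen_iff_mem_nhds]
  intro x hx
  simp only [paths, mem_compl_iff, mem_ofPred_eq, not_forall] at hx
  obtain ⟨n, hn⟩ := hx
  refine mem_nhds_iff_cyl.2 ⟨n, fun y hy hy' => hn ?_⟩
  have h1 : seg y n = seg x n := seg_eq_iff.2 (mem_cyl_seg.1 hy)
  exact h1 ▸ hy' n

theorem IsPi01.isClosed {P : Set (ℕ → Bool)} (h : IsPi01 P) : IsClosed P := by
  obtain ⟨T, -, -, rfl⟩ := h; exact isClosed_paths T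

theorem exists_cyl_disjoint {P : Set (ℕ → Bool)} (h : IsClosed P) {x : ℕ → Bool} (hx : x ∉ P) :
    ∃ n, cyl (seg x n) ⊆ Pᶜ :=
  mem_nhds_iff_cyl.1 (h.isOpen_compl.mem_nhds hx)

/-! ### Semidecidable predicates -/

/-- Existential quantification of a computable relation. -/
def Sig {α : Type} [Primcodable α] (p : α → Prop) : Prop :=
  ∃ R : α → ℕ → Bool, Computable (fun q : α × ℕ => R q.1 q.2) ∧ ∀ a, p a ↔ ∃ s, R a s = true

@[fun_prop] theorem comp_decode {α β : Type} [Primcodable α] [Primcodable β] {f : α → ℕ}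
    (hf : Computable f) : Computable (fun a => (Encodable.decode (f a) : Option β)) :=
  Computable.decode.comp hf

section Sig

variable {α β : Type} [Primcodable α] [Primcodable β]

theorem Sig.of_eq {p q : α → Prop} (h : Sig p) (H : ∀ a, p a ↔ q a) : Sig q := by
  obtain ⟨R, hR, h⟩ := h
  exact ⟨R, hR, fun a => (H a).symm.trans (h a)⟩

theorem Sig.of_bool {f : α → Bool} (hf : Computable f) : Sig (fun a => f a = true) :=
  ⟨fun a _ => f a, by fun_prop, fun a => by simp⟩

theorem Sig.comp {p : β → Prop} (h : Sig p) {f : α → β} (hf : Computable f) :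
    Sig (fun a => p (f a)) := by
  obtain ⟨R, hR, h⟩ := h
  refine ⟨fun a s => R (f a) s, ?_, fun a => h _⟩
  exact CFP.comp (g := fun q : α × ℕ => (f q.1, q.2)) hR (by fun_prop)

theorem Sig.or {p q : α → Prop} (hp : Sig p) (hq : Sig q) : Sig (fun a => p a ∨ q a) := by
  obtain ⟨R, hR, h⟩ := hp
  obtain ⟨S, hS, h'⟩ := hq
  refine ⟨fun a s => R a s || S a s, CFP.or hR hS, fun a => ?_⟩
  simp [h, h', exists_or]

theorem Sig.and {p q : α → Prop} (hp : Sig p) (hq : Sig q) : Sig (fun a => p a ∧ q a) := by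
  obtain ⟨R, hR, h⟩ := hp
  obtain ⟨S, hS, h'⟩ := hq
  refine ⟨fun a s => R a s.unpair.1 && S a s.unpair.2, CFP.and ?_ ?_, fun a => ?_⟩
  · exact CFP.comp (g := fun q : α × ℕ => (q.1, q.2.unpair.1)) hR (by fun_prop)
  · exact CFP.comp (g := fun q : α × ℕ => (q.1, q.2.unpair.2)) hS (by fun_prop)
  · simp only [h, h', Bool.and_eq_true]
    constructor
    · rintro ⟨⟨s, hs⟩, ⟨t, ht⟩⟩
      exact ⟨Nat.pair s t, by simpa using hs, by simpa using ht⟩
    · rintro ⟨s, h1, h2⟩
      exact ⟨⟨_, h1⟩, ⟨_, h2⟩⟩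

theorem Sig.ex {p : α → β → Prop} (hp : Sig (fun q : α × β => p q.1 q.2)) :
    Sig (fun a => ∃ b, p a b) := by
  obtain ⟨R, hR, h⟩ := hp
  refine ⟨fun a s => ((Encodable.decode s.unpair.1 : Option β).map
    (fun b => R (a, b) s.unpair.2)).getD false, ?_, fun a => ?_⟩
  · refine CFP.optGetD (CFP.optMap (by fun_prop) ?_) (by fun_prop)
    exact CFP.comp (g := fun q : (α × ℕ) × β => ((q.1.1, q.2), q.1.2.unpair.2)) hR (by fun_prop)
  · constructor
    · rintro ⟨b, hb⟩
      obtain ⟨s, hs⟩ := (h (a, b)).1 hb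
      exact ⟨Nat.pair (Encodable.encode b) s, by simpa using hs⟩
    · rintro ⟨s, hs⟩
      cases hd : (Encodable.decode s.unpair.1 : Option β) with
      | none => simp [hd] at hs
      | some b =>
        simp only [hd, Option.map_some, Option.getD_some] at hs
        exact ⟨b, (h (a, b)).2 ⟨_, hs⟩⟩

/-- A semidecidable predicate has a code. -/
theorem Sig.exists_code {p : α → Prop} (hp : Sig p) :
    ∃ c : ℕ, ∀ a, p a ↔ ∃ s, (Nat.Partrec.Code.evaln s (Denumerable.ofNat Nat.Partrec.Code c)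
      (Encodable.encode a)).isSome = true := by
  obtain ⟨R, hR, h⟩ := hp
  have h1 : Partrec (fun a => Nat.rfind (fun n => (Part.some (R a n) : Part Bool))) :=
    Partrec.rfind (p := fun a n => (Part.some (R a n) : Part Bool)) hR.partrec
  obtain ⟨c, hc⟩ := Nat.Partrec.Code.exists_code.1 h1
  refine ⟨Encodable.encode c, fun a => ?_⟩
  rw [Denumerable.ofNat_encode, h]
  have h2 : (∃ s, (Nat.Partrec.Code.evaln s c (Encodable.encode a)).isSome = true) ↔
      (c.eval (Encodable.encode a)).Dom := by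
    rw [Part.dom_iff_mem]
    constructor
    · rintro ⟨s, hs⟩
      obtain ⟨y, hy⟩ := Option.isSome_iff_exists.1 hs
      exact ⟨y, Nat.Partrec.Code.evaln_sound hy⟩
    · rintro ⟨y, hy⟩
      obtain ⟨s, hs⟩ := Nat.Partrec.Code.evaln_complete.1 hy
      exact ⟨s, Option.isSome_iff_exists.2 ⟨y, hs⟩⟩
  rw [h2, hc]
  simp only [Encodable.encodek, Part.coe_some, Part.bind_some, Part.map_Dom]
  rw [Nat.rfind_dom]
  simp

/-- Limit computability from least surviving witnesses. -/
theorem limitComputable_of_witness {f : α → Bool} {D : α → ℕ → Prop}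
    (hD : Sig (fun q : α × ℕ => D q.1 q.2)) {out : α → ℕ → Bool}
    (hout : Computable (fun q : α × ℕ => out q.1 q.2)) (hex : ∀ a, ∃ w, ¬ D a w)
    (hf : ∀ a w, ¬ D a w → out a w = f a) : LimitComputable f := by
  classical
  obtain ⟨R, hR, h⟩ := hD
  let V : α × ℕ → ℕ → Bool := fun q w => (List.range q.2).all (fun t => !R (q.1, w) t)
  have hV : Computable (fun r : (α × ℕ) × ℕ => V r.1 r.2) := by
    refine CFP.all (CFP.not ?_) (by fun_prop)
    exact CFP.comp (g := fun r : ((α × ℕ) × ℕ) × ℕ => ((r.1.1.1, r.1.2), r.2)) hR (by fun_prop)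
  have hVt : ∀ a w s, ¬ D a w → V (a, s) w = true := by
    intro a w s hw
    have := (h (a, w)).not.1 hw
    simp only [not_exists, Bool.not_eq_true] at this
    simp [V, this]
  have hex' : ∀ q, ∃ w, V q w = true := fun q =>
    let ⟨w, hw⟩ := hex q.1; ⟨w, hVt q.1 w q.2 hw⟩
  have hfind := CFP.find hV hex'
  refine ⟨fun a s => out a (Nat.find (hex' (a, s))), ?_, fun a => ?_⟩
  · exact CFP.comp (g := fun q : α × ℕ => (q.1, Nat.find (hex' q))) hout (by fun_prop)
  · have h1 : ∀ w ∈ Finset.range (Nat.find (hex a)), ∀ᶠ s in atTop, V (a, s) w = false := by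
      intro w hw
      have hw' : D a w := not_not.1 (Nat.find_min (hex a) (Finset.mem_range.1 hw))
      obtain ⟨t, ht⟩ := (h (a, w)).1 hw'
      filter_upwards [eventually_gt_atTop t] with s hs
      simp only [V, List.all_eq_false, List.mem_range]
      exact ⟨t, hs, by simpa using ht⟩
    filter_upwards [(Finset.eventually_all _).2 h1] with s hs
    have : Nat.find (hex' (a, s)) = Nat.find (hex a) := by
      rw [Nat.find_eq_iff]
      refine ⟨hVt _ _ _ (Nat.find_spec (hex a)), fun n hn => ?_⟩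
      simp [hs n (Finset.mem_range.2 hn)]
    rw [this]
    exact hf a _ (Nat.find_spec (hex a))

end Sig

/-! ### Classes from semidecidable sets of strings -/

theorem IsPi01.exists_tree {P : Set (ℕ → Bool)} (h : IsPi01 P) :
    ∃ T : List Bool → Bool, Computable T ∧ (∀ σ n, T σ = true → T (σ.take n) = true) ∧
      ∀ x, x ∈ P ↔ ∀ n, T (seg x n) = true := by
  obtain ⟨T, hT, ht, rfl⟩ := h
  obtain ⟨f, hf, rfl⟩ := ComputablePred.computable_iff.1 hT
  exact ⟨f, hf, ht, fun x => Iff.rfl⟩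

theorem isPi01_of_sig {W : List Bool → Prop} (hW : Sig W) :
    IsPi01 {x | ∀ n, ¬ W (seg x n)} := by
  obtain ⟨R, hR, h⟩ := hW
  let T : List Bool → Bool := fun τ => (List.range (τ.length + 1)).all
    (fun n => (List.range (τ.length + 1)).all (fun s => !R (τ.take n) s))
  have hT : Computable T := by
    refine CFP.all (CFP.all (CFP.not ?_) (by fun_prop)) (by fun_prop)
    exact CFP.comp (g := fun r : (List Bool × ℕ) × ℕ => (r.1.1.take r.1.2, r.2)) hR (by fun_prop)
  have hT' : ∀ τ, T τ = true ↔ ∀ n ≤ τ.length, ∀ s ≤ τ.length, R (τ.take n) s = false := by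
    intro τ; simp [T]
  refine ⟨fun τ => T τ = true, ComputablePred.computable_iff.2 ⟨T, hT, rfl⟩, ?_, ?_⟩
  · intro σ m hσ
    rw [hT'] at hσ ⊢
    intro n hn s hs
    rw [List.length_take] at hn hs
    rw [List.take_take, min_eq_left (by omega)]
    exact hσ n (by omega) s (by omega)
  · ext x
    simp only [mem_ofPred_eq, paths, hT', h, not_exists, Bool.not_eq_true, seg_length]
    constructor
    · intro H m n hn s _
      rw [seg_take_le x hn]; exact H n s
    · intro H n s
      have := H (max n s) n (le_max_left _ _) s (le_max_right _ _)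
      rwa [seg_take_le x (le_max_left _ _)] at this

theorem IsPi01.exists_sig {P : Set (ℕ → Bool)} (h : IsPi01 P) :
    ∃ W, Sig W ∧ P = {x | ∀ n, ¬ W (seg x n)} := by
  obtain ⟨T, hT, -, h⟩ := h.exists_tree
  refine ⟨fun σ => (!T σ) = true, Sig.of_bool (by fun_prop), ?_⟩
  ext x; simp [h]

theorem IsPi01.inter {P Q : Set (ℕ → Bool)} (hP : IsPi01 P) (hQ : IsPi01 Q) :
    IsPi01 (P ∩ Q) := by
  obtain ⟨W, hW, rfl⟩ := hP.exists_sig
  obtain ⟨W', hW', rfl⟩ := hQ.exists_sig
  convert isPi01_of_sig (hW.or hW') using 1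
  ext x; simp [forall_and]

theorem IsPi01.union {P Q : Set (ℕ → Bool)} (hP : IsPi01 P) (hQ : IsPi01 Q) :
    IsPi01 (P ∪ Q) := by
  obtain ⟨T, hT, ht, h⟩ := hP.exists_tree
  obtain ⟨S, hS, hs, h'⟩ := hQ.exists_tree
  convert isPi01_of_sig (Sig.of_bool (f := fun σ => !T σ && !S σ) (by fun_prop)) using 1
  ext x
  simp only [mem_union, h, h', mem_ofPred_eq, Bool.and_eq_true, Bool.not_eq_eq_eq_not,
    Bool.not_true, not_and, Bool.not_eq_false]
  constructor
  · rintro (H | H) n hn
    · rw [H n] at hn; exact absurd hn (by simp)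
    · exact H n
  · intro H
    by_contra hc
    push Not at hc
    obtain ⟨⟨n, hn⟩, ⟨m, hm⟩⟩ := hc
    by_cases h1 : T (seg x (max n m)) = true
    · have := ht _ n h1
      rw [seg_take_le x (le_max_left _ _)] at this; exact hn this
    · have := hs _ m (H (max n m) (by simpa using h1))
      rw [seg_take_le x (le_max_right _ _)] at this; exact hm this

theorem isPi01_empty : IsPi01 (∅ : Set (ℕ → Bool)) := by
  convert isPi01_of_sig (Sig.of_bool (f := fun _ : List Bool => true) (by fun_prop)) using 1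
  ext x; simp

theorem isPi01_univ : IsPi01 (univ : Set (ℕ → Bool)) := by
  convert isPi01_of_sig (Sig.of_bool (f := fun _ : List Bool => false) (by fun_prop)) using 1
  ext x; simp

theorem isPi01_cyl (σ : List Bool) : IsPi01 (cyl σ) := by
  convert isPi01_of_sig (Sig.of_bool (f := fun τ : List Bool =>
    (τ.length == σ.length) && (τ != σ)) (by fun_prop)) using 1
  ext x
  simp [cyl]

theorem isPi01_compl_cyl (σ : List Bool) : IsPi01 (cyl σ)ᶜ := by
  convert isPi01_of_sig (Sig.of_bool (f := fun τ : List Bool => (τ == σ)) (by fun_prop)) using 1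
  ext x
  simp only [cyl, mem_compl_iff, mem_ofPred_eq, beq_iff_eq]
  constructor
  · intro h n hn
    have : n = σ.length := by rw [← hn]; simp
    subst this; exact h hn
  · intro h; exact h _

/-! ### Strings of a given length, extendibility -/

/-- All strings of length `m`. -/
def strs (m : ℕ) : List (List Bool) :=
  @Nat.rec (fun _ => List (List Bool)) [[]]
    (fun _ ih => ih.flatMap (fun ρ => [false :: ρ, true :: ρ])) m

theorem mem_strs {m : ℕ} {ρ : List Bool} : ρ ∈ strs m ↔ ρ.length = m := by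
  induction m generalizing ρ with
  | zero => simp [strs]
  | succ m ih =>
    change ρ ∈ (strs m).flatMap (fun ρ => [false :: ρ, true :: ρ]) ↔ _
    simp only [List.mem_flatMap, ih, List.mem_cons, List.not_mem_nil, or_false]
    constructor
    · rintro ⟨a, rfl, rfl | rfl⟩ <;> simp
    · intro h
      cases ρ with
      | nil => simp at h
      | cons b a => exact ⟨a, by simpa using h, by cases b <;> simp⟩

@[fun_prop] theorem comp_strs {α : Type} [Primcodable α] {f : α → ℕ} (hf : Computable f) :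
    Computable (fun a => strs (f a)) := by
  have : Computable strs := by
    refine CFP.natRec (f := fun m : ℕ => m) (g := fun _ => ([[]] : List (List Bool)))
      (h := fun _ _ ih => ih.flatMap (fun ρ => [false :: ρ, true :: ρ])) ?_ ?_ ?_ <;> fun_prop
  exact CFP.comp this hf

/-- Compactness: a closed set missing the paths misses a level of the tree. -/
theorem exists_level {T : List Bool → Prop} (ht : IsTree T) {C : Set (ℕ → Bool)}
    (hC : IsClosed C) (h : ∀ x ∈ C, x ∉ paths T) : ∃ m, ∀ x ∈ C, ¬ T (seg x m) := by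
  by_contra hc
  push Not at hc
  let F : ℕ → Set (ℕ → Bool) := fun m => C ∩ {x | T (seg x m)}
  have hcl : ∀ m, IsClosed (F m) := by
    intro m
    refine hC.inter ?_
    rw [← isOpen_compl_iff, isOpen_iff_mem_nhds]
    intro x hx
    refine mem_nhds_iff_cyl.2 ⟨m, fun y hy hy' => hx ?_⟩
    have h1 : seg y m = seg x m := seg_eq_iff.2 (mem_cyl_seg.1 hy)
    change T (seg x m)
    rw [← h1]; exact hy'
  obtain ⟨x, hx⟩ := IsCompact.nonempty_iInter_of_sequence_nonempty_isCompact_isClosed F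
    (fun m x hx => ⟨hx.1, by
      have := ht _ m hx.2
      rwa [seg_take_le x (Nat.le_succ m)] at this⟩)
    (fun m => let ⟨x, h1, h2⟩ := hc m; ⟨x, h1, h2⟩) (hcl 0).isCompact hcl
  rw [mem_iInter] at hx
  exact h x (hx 0).1 (fun n => (hx n).2)

theorem mem_cyl_of_take {ρ σ : List Bool} (h : ρ.take σ.length = σ) {x : ℕ → Bool}
    (hx : x ∈ cyl ρ) : x ∈ cyl σ := by
  have hl : σ.length ≤ ρ.length := by
    have := congrArg List.length h
    rw [List.length_take] at this; omega
  change seg x σ.length = σ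
  rw [← seg_take_le x hl, show seg x ρ.length = ρ from hx, h]

theorem take_of_mem_cyl {σ : List Bool} {x : ℕ → Bool} (hx : x ∈ cyl σ) {m : ℕ}
    (hm : σ.length ≤ m) : (seg x m).take σ.length = σ := by
  rw [seg_take_le x hm]; exact hx

/-- Missing a class is semidecidable. -/
theorem IsPi01.sig_disjoint {P : Set (ℕ → Bool)} (hP : IsPi01 P) :
    Sig (fun σ => cyl σ ⊆ Pᶜ) := by
  obtain ⟨T, hT, ht, h⟩ := hP.exists_tree
  refine ⟨fun σ m => (strs (σ.length + m)).all (fun ρ => (ρ.take σ.length != σ) || !T ρ),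
    by fun_prop, fun σ => ?_⟩
  simp only [List.all_eq_true, mem_strs, Bool.or_eq_true, bne_iff_ne, Bool.not_eq_eq_eq_not,
    Bool.not_true]
  constructor
  · intro H
    obtain ⟨m, hm⟩ := exists_level (T := fun σ => T σ = true) ht (isClosed_cyl σ)
      (fun x hx hx' => H hx ((h x).2 hx'))
    refine ⟨m, fun ρ hρ => ?_⟩
    by_contra hc
    push Not at hc
    refine hm (pt ρ) (mem_cyl_of_take hc.1 (pt_mem_cyl ρ)) ?_
    have := ht ρ m (by simpa using hc.2)
    rwa [← seg_pt ρ, seg_take_le _ (by omega)] at this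
  · rintro ⟨m, hm⟩ x hx hx'
    rcases hm (seg x (σ.length + m)) (by simp) with h1 | h1
    · exact h1 (take_of_mem_cyl hx (by omega))
    · rw [(h x).1 hx'] at h1; exact absurd h1 (by simp)

/-- Not being contained in a class is semidecidable. -/
theorem IsPi01.sig_not_subset {P : Set (ℕ → Bool)} (hP : IsPi01 P) :
    Sig (fun σ => ¬ cyl σ ⊆ P) := by
  obtain ⟨T, hT, ht, h⟩ := hP.exists_tree
  refine (Sig.ex (p := fun σ ρ : List Bool => ((ρ.take σ.length == σ) && !T ρ) = true)
    (Sig.of_bool (by fun_prop))).of_eq (fun σ => ?_)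
  simp only [Bool.and_eq_true, beq_iff_eq, Bool.not_eq_eq_eq_not, Bool.not_true]
  constructor
  · rintro ⟨ρ, h1, h2⟩ H
    have := (h _).1 (H (mem_cyl_of_take h1 (pt_mem_cyl ρ))) ρ.length
    rw [seg_pt, h2] at this; exact absurd this (by simp)
  · intro H
    obtain ⟨x, hx, hx'⟩ := not_subset.1 H
    rw [h] at hx'
    push Not at hx'
    obtain ⟨n, hn⟩ := hx'
    refine ⟨seg x (max n σ.length), take_of_mem_cyl hx (le_max_right _ _), ?_⟩
    by_contra hc
    have := ht _ n (by simpa using hc)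
    rw [seg_take_le x (le_max_left _ _)] at this
    exact hn this

end Pool.Agent.P.MP_54474a_lc
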