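import Mathlib

/-!
Definitions for the lattice of effectively closed subsets of Cantor space.
-/

namespace Pool.Agent.P.MP_54474a_lc

open Filter

/-- The initial segment of length `n` of a point of Cantor space. -/
def seg (x : ℕ → Bool) (n : ℕ) : List Bool := (List.range n).map x

/-- A set of binary strings closed under initial segments. -/
def IsTree (T : List Bool → Prop) : Prop := ∀ σ n, T σ → T (σ.take n)

/-- The infinite paths through `T`. -/
def paths (T : List Bool → Prop) : Set (ℕ → Bool) := {x | ∀ n, T (seg x n)}

/-- `P` is the set of infinite paths through a computable binary tree. -/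
def IsPi01 (P : Set (ℕ → Bool)) : Prop :=
  ∃ T : List Bool → Prop, ComputablePred T ∧ IsTree T ∧ P = paths T

/-- The lattice of all such classes, ordered by inclusion. -/
abbrev EPi : Type := {P : Set (ℕ → Bool) // IsPi01 P}

/-- Some automorphism of the lattice maps `P` to `Q`. -/
def Automorphic (P Q : EPi) : Prop := ∃ Φ : EPi ≃o EPi, Φ P = Q

/-- `f` is the pointwise limit of a computable approximation. -/
def LimitComputable {α : Type} [Primcodable α] (f : α → Bool) : Prop :=
  ∃ g : α → ℕ → Bool, Computable₂ g ∧ ∀ a, ∀ᶠ s in atTop, g a s = f a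

/-- `F` is the set of infinite paths through a limit computable binary tree. -/
def IsPi01Jump (F : Set (ℕ → Bool)) : Prop :=
  ∃ T : List Bool → Bool, LimitComputable T ∧ IsTree (fun σ => T σ = true) ∧
    F = paths (fun σ => T σ = true)

/-- At every level `n`, at most `K` points of `P` branch off from `A` at level `n`. -/
def WidthLE (P : Set (ℕ → Bool)) (A : ℕ → Bool) (K : ℕ∞) : Prop :=
  ∀ n, {x | x ∈ P ∧ (∀ i < n, x i = A i) ∧ x n ≠ A n}.encard ≤ K

end Pool.Agent.P.MP_54474a_lc
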