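import Pool.Agent.P.MP_54474a_lc.Realize

namespace Pool.Agent.P.MP_54474a_lc

open Filter Set Topology

theorem disjoint_map (Φ : EPi ≃o EPi) {P Q : EPi} (h : P.1 ⊆ Q.1ᶜ) : (Φ P).1 ⊆ (Φ Q).1ᶜ := by
  let R : EPi := ⟨(Φ P).1 ∩ (Φ Q).1, (Φ P).2.inter (Φ Q).2⟩
  let E : EPi := ⟨∅, isPi01_empty⟩
  have h1 : Φ.symm R ≤ P := (Φ.symm_apply_le).2 (show R.1 ⊆ (Φ P).1 from inter_subset_left)
  have h2 : Φ.symm R ≤ Q := (Φ.symm_apply_le).2 (show R.1 ⊆ (Φ Q).1 from inter_subset_right)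
  have h3 : Φ.symm R ≤ Φ.symm E := fun x hx => (h (h1 hx) (h2 hx)).elim
  have h4 : R ≤ E := Φ.symm.le_iff_le.1 h3
  intro x hx hx'
  exact h4 (show x ∈ R.1 from ⟨hx, hx'⟩)

theorem cover_map (Φ : EPi ≃o EPi) {P Q : EPi} (h : P.1ᶜ ⊆ Q.1) : (Φ P).1ᶜ ⊆ (Φ Q).1 := by
  let R : EPi := ⟨(Φ P).1 ∪ (Φ Q).1, (Φ P).2.union (Φ Q).2⟩
  let U : EPi := ⟨univ, isPi01_univ⟩
  have h1 : P ≤ Φ.symm R := (Φ.le_symm_apply).2 (show (Φ P).1 ⊆ R.1 from subset_union_left)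
  have h2 : Q ≤ Φ.symm R := (Φ.le_symm_apply).2 (show (Φ Q).1 ⊆ R.1 from subset_union_right)
  have h3 : Φ.symm U ≤ Φ.symm R := fun x _ => by
    by_cases hx : x ∈ P.1
    · exact h1 hx
    · exact h2 (h hx)
  have h4 : U ≤ R := Φ.symm.le_iff_le.1 h3
  intro x hx
  exact (h4 (show x ∈ U.1 from mem_univ x)).resolve_left hx

/-- The cylinder of a string, as an element of the lattice. -/
def cylE (σ : List Bool) : EPi := ⟨cyl σ, isPi01_cyl σ⟩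

/-- The complement of a cylinder, as an element of the lattice. -/
def coE (σ : List Bool) : EPi := ⟨(cyl σ)ᶜ, isPi01_compl_cyl σ⟩

theorem map_coE (Φ : EPi ≃o EPi) (σ : List Bool) : (Φ (coE σ)).1 = (Φ (cylE σ)).1ᶜ := by
  apply Subset.antisymm
  · exact disjoint_map Φ (fun _ h => by simpa [coE, cylE] using h)
  · exact cover_map Φ (fun _ h => h)

theorem isOpen_map_cylE (Φ : EPi ≃o EPi) (σ : List Bool) : IsOpen (Φ (cylE σ)).1 := by
  rw [← isClosed_compl_iff, ← map_coE]; exact (Φ (coE σ)).2.isClosed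

theorem exists_rel (Φ : EPi ≃o EPi) (x : ℕ → Bool) :
    ∃ y, ∀ Q : EPi, x ∈ Q.1 ↔ y ∈ (Φ Q).1 := by
  obtain ⟨y, hy⟩ := IsCompact.nonempty_iInter_of_sequence_nonempty_isCompact_isClosed
    (fun n => (Φ (cylE (seg x n))).1)
    (fun n => Φ.monotone (show cylE (seg x (n + 1)) ≤ cylE (seg x n) from
      cyl_seg_anti x (Nat.le_succ n)))
    (fun n => by
      by_contra hc
      rw [not_nonempty_iff_eq_empty] at hc
      have h1 : Φ (cylE (seg x n)) ≤ Φ ⟨∅, isPi01_empty⟩ := by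
        intro z hz; rw [hc] at hz; exact hz.elim
      exact (Φ.le_iff_le.1 h1 (self_mem_cyl x n)).elim)
    (Φ _).2.isClosed.isCompact (fun n => (Φ _).2.isClosed)
  rw [mem_iInter] at hy
  refine ⟨y, fun Q => ⟨fun hx => ?_, fun hy' => ?_⟩⟩
  · by_contra hc
    obtain ⟨m, hm⟩ := exists_cyl_disjoint (Φ Q).2.isClosed hc
    have h1 := disjoint_map Φ.symm (P := cylE (seg y m)) (Q := Φ Q) hm
    rw [Φ.symm_apply_apply] at h1
    have h2 : x ∉ (Φ.symm (cylE (seg y m))).1 := fun h => h1 h hx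
    obtain ⟨n, hn⟩ := exists_cyl_disjoint (Φ.symm (cylE (seg y m))).2.isClosed h2
    have h3 := disjoint_map Φ (P := cylE (seg x n)) (Q := Φ.symm (cylE (seg y m))) hn
    rw [Φ.apply_symm_apply] at h3
    exact h3 (hy n) (self_mem_cyl y m)
  · by_contra hc
    obtain ⟨n, hn⟩ := exists_cyl_disjoint Q.2.isClosed hc
    exact disjoint_map Φ (P := cylE (seg x n)) hn (hy n) hy'

theorem rel_unique (Φ : EPi ≃o EPi) {x y y' : ℕ → Bool}
    (h : ∀ Q : EPi, x ∈ Q.1 ↔ y ∈ (Φ Q).1) (h' : ∀ Q : EPi, x ∈ Q.1 ↔ y' ∈ (Φ Q).1) :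
    y = y' := by
  funext i
  have h1 := (h (Φ.symm (cylE (seg y (i + 1))))).symm.trans (h' _)
  rw [Φ.apply_symm_apply] at h1
  exact (mem_cyl_seg.1 (h1.1 (self_mem_cyl y _)) i (Nat.lt_succ_self i)).symm

theorem rel_symm (Φ : EPi ≃o EPi) {x y : ℕ → Bool}
    (h : ∀ Q : EPi, x ∈ Q.1 ↔ y ∈ (Φ Q).1) : ∀ Q : EPi, y ∈ Q.1 ↔ x ∈ (Φ.symm Q).1 := by
  intro Q
  rw [h, Φ.apply_symm_apply]

theorem continuous_of_rel (Φ : EPi ≃o EPi) {f : (ℕ → Bool) → (ℕ → Bool)}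
    (h : ∀ x, ∀ Q : EPi, x ∈ Q.1 ↔ f x ∈ (Φ Q).1) : Continuous f := by
  rw [continuous_iff_continuousAt]
  intro x s hs
  obtain ⟨n, hn⟩ := mem_nhds_iff_cyl.1 hs
  have h1 : f ⁻¹' cyl (seg (f x) n) = (Φ.symm (cylE (seg (f x) n))).1 := by
    ext z
    rw [h, Φ.apply_symm_apply]; rfl
  change f ⁻¹' s ∈ 𝓝 x
  refine mem_of_superset (x := f ⁻¹' cyl (seg (f x) n)) ?_ (preimage_mono hn)
  refine IsOpen.mem_nhds ?_ (self_mem_cyl (f x) n)
  rw [h1]; exact isOpen_map_cylE _ _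

/-- Every automorphism of the lattice is induced by a homeomorphism of Cantor space. -/
theorem exists_homeo (Φ : EPi ≃o EPi) :
    ∃ h : (ℕ → Bool) ≃ₜ (ℕ → Bool), ∀ Q : EPi, (Φ Q).1 = h '' Q.1 := by
  choose f hf using exists_rel Φ
  choose g hg using exists_rel Φ.symm
  have h1 : ∀ x, g (f x) = x := fun x => rel_unique Φ.symm (hg (f x)) (rel_symm Φ (hf x))
  have h2 : ∀ y, f (g y) = y := fun y => rel_unique Φ (hf (g y)) (rel_symm Φ.symm (hg y))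
  refine ⟨⟨⟨f, g, h1, h2⟩, continuous_of_rel Φ hf, continuous_of_rel Φ.symm hg⟩, fun Q => ?_⟩
  ext y
  constructor
  · intro hy
    exact ⟨g y, (hf _ Q).2 (by rwa [h2]), h2 y⟩
  · rintro ⟨x, hx, rfl⟩
    exact (hf x Q).1 hx

theorem symm_induced {Φ : EPi ≃o EPi} {h : (ℕ → Bool) ≃ₜ (ℕ → Bool)}
    (H : ∀ Q : EPi, (Φ Q).1 = h '' Q.1) : ∀ Q : EPi, (Φ.symm Q).1 = h.symm '' Q.1 := by
  intro Q
  have := H (Φ.symm Q)
  rw [Φ.apply_symm_apply] at this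
  rw [this, ← image_comp]; simp

theorem isPi01_image {Φ : EPi ≃o EPi} {h : (ℕ → Bool) ≃ₜ (ℕ → Bool)}
    (H : ∀ Q : EPi, (Φ Q).1 = h '' Q.1) {Q : Set (ℕ → Bool)} (hQ : IsPi01 Q) :
    IsPi01 (h '' Q) := H ⟨Q, hQ⟩ ▸ (Φ ⟨Q, hQ⟩).2

theorem jump_image {Φ : EPi ≃o EPi} {h : (ℕ → Bool) ≃ₜ (ℕ → Bool)}
    (H : ∀ Q : EPi, (Φ Q).1 = h '' Q.1) {P F : Set (ℕ → Bool)} (hP : IsPi01 P)
    (nd : interior P = ∅) (hF : F ⊆ P) (hJ : IsPi01Jump F) : IsPi01Jump (h '' F) := by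
  obtain ⟨Q, hQ, rfl⟩ := (isPi01Jump_iff hP nd hF).1 hJ
  refine (isPi01Jump_iff (isPi01_image H hP) ?_ (image_mono hF)).2
    ⟨h '' Q, isPi01_image H hQ, ?_⟩
  · rw [← h.image_interior, nd, image_empty]
  · rw [image_sdiff h.injective, h.image_interior]

theorem jump_image_iff {Φ : EPi ≃o EPi} {h : (ℕ → Bool) ≃ₜ (ℕ → Bool)}
    (H : ∀ Q : EPi, (Φ Q).1 = h '' Q.1) {P F : Set (ℕ → Bool)} (hP : IsPi01 P)
    (nd : interior P = ∅) (hF : F ⊆ P) : IsPi01Jump F ↔ IsPi01Jump (h '' F) := by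
  refine ⟨jump_image H hP nd hF, fun hJ => ?_⟩
  have := jump_image (symm_induced H) (isPi01_image H hP)
    (by rw [← h.image_interior, nd, image_empty]) (image_mono hF) hJ
  rwa [← image_comp, h.symm_comp_self, image_id] at this

theorem image_derivedSet (h : (ℕ → Bool) ≃ₜ (ℕ → Bool)) (P : Set (ℕ → Bool)) :
    h '' derivedSet P = derivedSet (h '' P) := by
  apply Subset.antisymm (h.continuous.image_derivedSet h.injective)
  have := h.symm.continuous.image_derivedSet (A := h '' P) h.symm.injective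
  rw [← image_comp, h.symm_comp_self, image_id] at this
  intro y hy
  exact ⟨h.symm y, this ⟨y, hy, rfl⟩, by simp⟩

theorem accPt_iff_cyl {P : Set (ℕ → Bool)} {x : ℕ → Bool} :
    x ∈ derivedSet P ↔ ∀ n, ∃ y ∈ P, y ∈ cyl (seg x n) ∧ y ≠ x := by
  rw [mem_derivedSet, accPt_iff_nhds]
  constructor
  · intro h n
    obtain ⟨y, ⟨h1, h2⟩, h3⟩ := h _ ((isOpen_cyl _).mem_nhds (self_mem_cyl x n))
    exact ⟨y, h2, h1, h3⟩
  · intro h U hU
    obtain ⟨n, hn⟩ := mem_nhds_iff_cyl.1 hU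
    obtain ⟨y, h1, h2, h3⟩ := h n
    exact ⟨y, ⟨hn h2, h1⟩, h3⟩

theorem cyl_subset_derivedSet {P : Set (ℕ → Bool)} {σ : List Bool} (h : cyl σ ⊆ P) :
    cyl σ ⊆ derivedSet P := by
  intro x hx
  rw [accPt_iff_cyl]
  intro n
  have key : ∀ m ≤ max n σ.length,
      Function.update x (max n σ.length) (!x (max n σ.length)) ∈ cyl (seg x m) :=
    fun m hm => mem_cyl_seg.2 fun i hi => Function.update_of_ne (by omega) _ _
  refine ⟨_, h ?_, key n (le_max_left _ _), fun hc => ?_⟩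
  · rw [cyl_eq_of_mem hx]; exact key _ (le_max_right _ _)
  · have := congrFun hc (max n σ.length)
    simp at this

theorem interior_eq_empty_of_rank_one {P : Set (ℕ → Bool)}
    (h : derivedSet (derivedSet P) = ∅) : interior P = ∅ := by
  rw [eq_empty_iff_forall_notMem]
  intro x hx
  obtain ⟨n, hn⟩ := mem_interior_iff_cyl.1 hx
  have := cyl_subset_derivedSet (cyl_subset_derivedSet hn) (self_mem_cyl x n)
  rw [h] at this; exact this

theorem derivedSet_singleton (A : ℕ → Bool) : derivedSet {A} = ∅ := by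
  rw [eq_empty_iff_forall_notMem]
  intro x hx
  rw [accPt_iff_cyl] at hx
  obtain ⟨y, rfl, -, h⟩ := hx 0
  obtain ⟨i, hi⟩ := Function.ne_iff.1 h
  obtain ⟨z, rfl, h2, -⟩ := hx (i + 1)
  exact hi (mem_cyl_seg.1 h2 i (Nat.lt_succ_self i))

end Pool.Agent.P.MP_54474a_lc
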