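import Pool.Agent.P.MP_54474a_lc.Basic

namespace Pool.Agent.P.MP_54474a_lc

open Filter Set Topology Pool.Agent.Lib.Helper43

attribute [local irreducible] Computable

theorem compat_of_mem {a b : List Bool} {x : ℕ → Bool} (ha : x ∈ cyl a) (hb : x ∈ cyl b) :
    a.take b.length = b.take a.length := by
  have h1 : a = seg x a.length := Eq.symm ha
  have h2 : b = seg x b.length := Eq.symm hb
  conv_lhs => rw [h1]
  conv_rhs => rw [h2]
  simp only [seg_take, seg_length, min_comm]

/-- Every set that is effectively open relative to the halting problem has the same trace on a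
nowhere dense class as the interior of a suitable class. -/
theorem realize_nat {P : Set (ℕ → Bool)} (hP : IsPi01 P) (nd : interior P = ∅)
    {c : ℕ → List Bool} (hc : Computable c) {D : ℕ → Prop} (hD : Sig D) :
    ∃ Q, IsPi01 Q ∧ ∀ x ∈ P, x ∈ interior Q ↔ ∃ i, ¬ D i ∧ x ∈ cyl (c i) := by
  classical
  obtain ⟨T, hT, ht, hPT⟩ := hP.exists_tree
  obtain ⟨R, hR, hDR⟩ := hD
  let rho : ℕ → List Bool := fun t =>
    (Encodable.decode t.unpair.2 : Option (List Bool)).getD []
  have hrho : Computable rho := by fun_prop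
  let dead : ℕ → ℕ → Bool := fun n s => (List.range s).any (fun s' => R n s')
  have hdead : Computable (fun q : ℕ × ℕ => dead q.1 q.2) := by
    refine CFP.any ?_ (by fun_prop)
    exact CFP.comp (g := fun r : (ℕ × ℕ) × ℕ => (r.1.1, r.2)) hR (by fun_prop)
  let C : List Bool → ℕ → Bool := fun σ t =>
    ((rho t).take σ.length == σ) && !T (rho t) &&
      (List.range (Encodable.encode σ)).all (fun n => dead n t.unpair.1 ||
        ((c n).take (rho t).length != (rho t).take (c n).length))
  have hC : Computable (fun q : List Bool × ℕ => C q.1 q.2) := by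
    refine CFP.and (by fun_prop) (CFP.all (CFP.or ?_ (by fun_prop)) (by fun_prop))
    exact CFP.comp (g := fun r : (List Bool × ℕ) × ℕ => (r.2, r.1.2.unpair.1)) hdead (by fun_prop)
  have hC' : ∀ σ t, C σ t = true ↔ (rho t).take σ.length = σ ∧ T (rho t) = false ∧
      ∀ n < Encodable.encode σ, (∃ s' < t.unpair.1, R n s' = true) ∨
        (c n).take (rho t).length ≠ (rho t).take (c n).length := by
    intro σ t
    simp [C, dead, and_assoc]
  let W : List Bool → Prop := fun ρ => ∃ q : List Bool × ℕ,
    (C q.1 q.2 && (List.range q.2).all (fun t' => !C q.1 t') && (rho q.2 == ρ)) = true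
  have hW : Sig W := by
    refine Sig.ex (p := fun ρ (q : List Bool × ℕ) => (C q.1 q.2 &&
      (List.range q.2).all (fun t' => !C q.1 t') && (rho q.2 == ρ)) = true) (Sig.of_bool ?_)
    refine CFP.and (CFP.and ?_ (CFP.all (CFP.not ?_) (by fun_prop))) (by fun_prop)
    · exact CFP.comp (g := fun r : List Bool × List Bool × ℕ => r.2) hC (by fun_prop)
    · exact CFP.comp (g := fun r : (List Bool × List Bool × ℕ) × ℕ => (r.1.2.1, r.2)) hC
        (by fun_prop)
  have hW' : ∀ ρ, W ρ ↔ ∃ σ, ∃ h : ∃ t, C σ t = true, rho (Nat.find h) = ρ := by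
    intro ρ
    constructor
    · rintro ⟨⟨σ, t⟩, hq⟩
      simp only [Bool.and_eq_true, List.all_eq_true, List.mem_range, Bool.not_eq_eq_eq_not,
        Bool.not_true, beq_iff_eq] at hq
      refine ⟨σ, ⟨t, hq.1.1⟩, ?_⟩
      rw [(Nat.find_eq_iff _).2 ⟨hq.1.1, fun n hn => by simp [hq.1.2 n hn]⟩]
      exact hq.2
    · rintro ⟨σ, h, rfl⟩
      refine ⟨(σ, Nat.find h), ?_⟩
      simp only [Bool.and_eq_true, List.all_eq_true, List.mem_range, Bool.not_eq_eq_eq_not,
        Bool.not_true, beq_iff_eq]
      exact ⟨⟨Nat.find_spec h, fun n hn => by simpa using Nat.find_min h hn⟩, trivial⟩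
  refine ⟨_, isPi01_of_sig hW, fun x hx => ?_⟩
  rw [mem_interior_iff_cyl]
  constructor
  · rintro ⟨l, hl⟩
    by_contra hno
    push Not at hno
    set σ := seg x l with hσ
    -- every protector of small index dies or misses `x`
    have h1 : ∀ n ∈ Finset.range (Encodable.encode σ), ∀ᶠ s in atTop,
        (∃ s' < s, R n s' = true) ∨ x ∉ cyl (c n) := by
      intro n _
      by_cases hn : D n
      · obtain ⟨s', hs'⟩ := (hDR n).1 hn
        filter_upwards [eventually_gt_atTop s'] with s hs using Or.inl ⟨s', hs, hs'⟩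
      · exact Eventually.of_forall fun s => Or.inr (hno n hn)
    obtain ⟨s, hs⟩ := ((Finset.eventually_all _).2 h1).exists
    let l' := max l ((Finset.range (Encodable.encode σ)).sup (fun n => (c n).length))
    have hxi : x ∉ interior P := by rw [nd]; exact notMem_empty _
    rw [mem_interior_iff_cyl] at hxi
    push Not at hxi
    obtain ⟨z, hz, hz'⟩ := not_subset.1 (hxi l')
    rw [hPT] at hz'
    push Not at hz'
    obtain ⟨m, hm⟩ := hz'
    let ρ := seg z (max m l')
    have hex : ∃ t, C σ t = true := by
      refine ⟨Nat.pair s (Encodable.encode ρ), ?_⟩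
      have hr : rho (Nat.pair s (Encodable.encode ρ)) = ρ := by simp [rho]
      rw [hC', hr]
      refine ⟨?_, ?_, fun n hn => ?_⟩
      · exact take_of_mem_cyl (cyl_seg_anti x (le_max_left _ _) hz) (by simp [σ, l'])
      · by_contra hcon
        have := ht ρ m (by simpa using hcon)
        rw [seg_take_le z (le_max_left _ _)] at this
        exact hm this
      · rcases hs n (Finset.mem_range.2 hn) with h | h
        · exact Or.inl (by simpa using h)
        · refine Or.inr fun heq => h ?_
          have hle : (c n).length ≤ l' := le_max_of_le_right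
            (Finset.le_sup (f := fun n => (c n).length) (Finset.mem_range.2 hn))
          rw [List.take_of_length_le (by simp [ρ]; omega),
            seg_take_le z (le_max_of_le_right hle)] at heq
          change seg x (c n).length = c n
          conv_rhs => rw [heq]
          exact seg_eq_iff.2 fun i hi => (mem_cyl_seg.1 hz i (by omega)).symm
    have hspec := (hC' σ _).1 (Nat.find_spec hex)
    have hmem := hl (mem_cyl_of_take hspec.1 (pt_mem_cyl _))
    refine hmem (rho (Nat.find hex)).length ?_
    rw [seg_pt]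
    exact (hW' _).2 ⟨σ, hex, rfl⟩
  · rintro ⟨i, hi, hxi⟩
    let rem : ℕ → ℕ := fun m =>
      match (Encodable.decode m : Option (List Bool)) with
      | none => 0
      | some σ => if h : ∃ t, C σ t = true then (rho (Nat.find h)).length else 0
    let N := max (c i).length ((Finset.range (i + 1)).sup rem)
    refine ⟨N, fun y hy m hm => ?_⟩
    obtain ⟨σ, h, hρ⟩ := (hW' _).1 hm
    have hspec := (hC' σ _).1 (Nat.find_spec h)
    have hyi : y ∈ cyl (c i) := by
      rw [cyl_eq_of_mem hxi]; exact cyl_seg_anti x (le_max_left _ _) hy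
    by_cases hσ : i < Encodable.encode σ
    · rcases hspec.2.2 i hσ with ⟨s', -, hs'⟩ | h2
      · exact hi ((hDR i).2 ⟨s', hs'⟩)
      · rw [hρ] at h2
        exact h2 (compat_of_mem hyi (self_mem_cyl y m))
    · have hle : m ≤ N := by
        refine le_max_of_le_right (le_trans ?_
          (Finset.le_sup (f := rem) (b := Encodable.encode σ) (Finset.mem_range.2 (by omega))))
        simp [rem, h, hρ]
      have h3 : seg y m = seg x m := seg_eq_iff.2 fun j hj => mem_cyl_seg.1 hy j (by omega)
      have := (hPT x).1 hx m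
      rw [← h3, ← hρ, hspec.2.1] at this
      exact absurd this (by simp)

theorem realize {ι : Type} [Primcodable ι] {P : Set (ℕ → Bool)} (hP : IsPi01 P)
    (nd : interior P = ∅) {c : ι → List Bool} (hc : Computable c) {D : ι → Prop} (hD : Sig D) :
    ∃ Q, IsPi01 Q ∧ ∀ x ∈ P, x ∈ interior Q ↔ ∃ i, ¬ D i ∧ x ∈ cyl (c i) := by
  have h1 : Computable (fun n : ℕ => ((Encodable.decode n : Option ι).map c).getD []) := by
    refine CFP.optGetD (CFP.optMap (g := fun _ i => c i) (by fun_prop) (by fun_prop)) (by fun_prop)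
  have h2 : Sig (fun n : ℕ => (!(Encodable.decode n : Option ι).isSome) = true ∨
      ∃ i, ((Encodable.decode n : Option ι).map Encodable.encode == some (Encodable.encode i))
        = true ∧ D i) := by
    refine (Sig.of_bool (by fun_prop)).or (Sig.ex (Sig.and (Sig.of_bool ?_) ?_))
    · refine CFP.beq (CFP.optMap (g := fun _ i => Encodable.encode i) (by fun_prop)
        (by fun_prop)) (by fun_prop)
    · exact hD.comp (by fun_prop)
  obtain ⟨Q, hQ, h⟩ := realize_nat hP nd h1 h2
  refine ⟨Q, hQ, fun x hx => (h x hx).trans ⟨?_, ?_⟩⟩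
  · rintro ⟨n, hn, hx⟩
    cases hd : (Encodable.decode n : Option ι) with
    | none => simp [hd] at hn
    | some i =>
      simp only [hd] at hn hx
      exact ⟨i, fun hi => hn (Or.inr ⟨i, by simp, hi⟩), by simpa using hx⟩
  · rintro ⟨i, hi, hx⟩
    refine ⟨Encodable.encode i, ?_, by simpa using hx⟩
    simpa using hi

/-- The subclasses of a nowhere dense class `P` that are effectively closed relative to the
halting problem are exactly the sets `P \ interior Q`. -/
theorem isPi01Jump_iff {P : Set (ℕ → Bool)} (hP : IsPi01 P) (nd : interior P = ∅)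
    {F : Set (ℕ → Bool)} (hF : F ⊆ P) :
    IsPi01Jump F ↔ ∃ Q, IsPi01 Q ∧ F = P \ interior Q := by
  constructor
  · rintro ⟨T, ⟨g, hg, hlim⟩, ht, rfl⟩
    have hD : Sig (fun i : List Bool × ℕ => ∃ s, (decide (i.2 ≤ s) && g i.1 s) = true) := by
      refine Sig.ex (Sig.of_bool (CFP.and (by fun_prop) ?_))
      exact CFP.comp (g := fun r : (List Bool × ℕ) × ℕ => (r.1.1, r.2)) hg (by fun_prop)
    obtain ⟨Q, hQ, h⟩ := realize hP nd (c := fun i : List Bool × ℕ => i.1) (by fun_prop) hD
    refine ⟨Q, hQ, ?_⟩
    ext x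
    constructor
    · intro hx
      refine ⟨hF hx, fun hi => ?_⟩
      obtain ⟨⟨τ, w⟩, h1, h2⟩ := (h x (hF hx)).1 hi
      obtain ⟨s, hs1, hs2⟩ := ((hlim τ).and (eventually_ge_atTop w)).exists
      refine h1 ⟨s, ?_⟩
      have := hx τ.length
      rw [show seg x τ.length = τ from h2] at this
      simp [hs2, hs1, this]
    · rintro ⟨hx, hi⟩ n
      by_contra hn
      refine hi ((h x hx).2 ?_)
      obtain ⟨w, hw⟩ := eventually_atTop.1 (hlim (seg x n))
      refine ⟨(seg x n, w), ?_, self_mem_cyl x n⟩
      rintro ⟨s, hs⟩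
      simp only [Bool.and_eq_true, decide_eq_true_eq] at hs
      rw [hw s hs.1] at hs
      exact hn hs.2
  · rintro ⟨Q, hQ, rfl⟩
    classical
    obtain ⟨T, hT, ht, hPT⟩ := hP.exists_tree
    obtain ⟨R, hR, hQR⟩ := hQ.sig_not_subset
    refine ⟨fun τ => T τ && decide (¬ cyl τ ⊆ Q),
      ⟨fun τ s => T τ && (List.range s).any (fun t => R τ t), ?_, fun τ => ?_⟩, ?_, ?_⟩
    · refine CFP.and (by fun_prop) (CFP.any ?_ (by fun_prop))
      exact CFP.comp (g := fun r : (List Bool × ℕ) × ℕ => (r.1.1, r.2)) hR (by fun_prop)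
    · by_cases hτ : ¬ cyl τ ⊆ Q
      · obtain ⟨t, ht⟩ := (hQR τ).1 hτ
        filter_upwards [eventually_gt_atTop t] with s hs
        have : (List.range s).any (fun t => R τ t) = true := by
          simp only [List.any_eq_true, List.mem_range]; exact ⟨t, hs, ht⟩
        simp [this, hτ]
      · have h1 := (hQR τ).not.1 hτ
        refine Eventually.of_forall fun s => ?_
        have : (List.range s).any (fun t => R τ t) = false := by
          simp only [List.any_eq_false]; exact fun t _ ht => h1 ⟨t, ht⟩
        simp [this, hτ]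
    · intro σ n hσ
      simp only [Bool.and_eq_true, decide_eq_true_eq] at hσ ⊢
      refine ⟨ht σ n hσ.1, fun h => hσ.2 fun x hx => h (mem_cyl_of_take ?_ hx)⟩
      simp [List.take_take]
    · ext x
      simp only [mem_diff, hPT, mem_interior_iff_cyl, paths, mem_ofPred_eq, Bool.and_eq_true,
        decide_eq_true_eq, forall_and, not_exists]

/-- A point is limit computable iff its singleton is effectively closed relative to the halting
problem. -/
theorem isPi01Jump_singleton {x : ℕ → Bool} : IsPi01Jump {x} ↔ LimitComputable x := by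
  constructor
  · rintro ⟨T, ⟨g, hg, hlim⟩, ht, hx⟩
    let b : ℕ → Bool := fun w => w.unpair.1.bodd
    let m : ℕ → ℕ := fun w => w.unpair.2.unpair.1
    let t : ℕ → ℕ := fun w => w.unpair.2.unpair.2
    let D : ℕ → ℕ → Prop := fun n w => ∃ s, (decide (m w ≤ n) || (decide (t w ≤ s) &&
      (strs (m w)).any (fun ρ => (ρ.getD n false == b w) && g ρ s))) = true
    have hD : Sig (fun q : ℕ × ℕ => D q.1 q.2) := by
      refine Sig.ex (Sig.of_bool (CFP.or (by fun_prop) (CFP.and (by fun_prop)
        (CFP.any (CFP.and (by fun_prop) ?_) (by fun_prop)))))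
      exact CFP.comp (g := fun r : ((ℕ × ℕ) × ℕ) × List Bool => (r.2, r.1.2)) hg (by fun_prop)
    have hxT : ∀ n, T (seg x n) = true := by
      have : x ∈ paths (fun σ => T σ = true) := hx ▸ mem_singleton x
      exact this
    refine limitComputable_of_witness hD (out := fun _ w => !b w) (by fun_prop) ?_ ?_
    · intro n
      have hcl : IsClosed {y : ℕ → Bool | y n = !x n} :=
        isClosed_eq (continuous_apply n) continuous_const
      obtain ⟨k, hk⟩ := exists_level ht hcl (fun y hy hy' => by
        rw [← hx, mem_singleton_iff] at hy'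
        subst hy'
        simp at hy)
      have h1 : ∀ ρ ∈ (strs (max k (n + 1))).toFinset, ∀ᶠ s in atTop, g ρ s = T ρ :=
        fun ρ _ => hlim ρ
      obtain ⟨s0, hs0⟩ := eventually_atTop.1 ((Finset.eventually_all _).2 h1)
      refine ⟨Nat.pair (if x n then 0 else 1) (Nat.pair (max k (n + 1)) s0), ?_⟩
      rintro ⟨s, hs⟩
      have hb : b (Nat.pair (if x n then 0 else 1) (Nat.pair (max k (n + 1)) s0)) = !x n := by
        cases x n <;> simp [b]
      simp only [hb, m, t, Nat.unpair_pair, Bool.or_eq_true, decide_eq_true_eq,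
        Bool.and_eq_true, List.any_eq_true, beq_iff_eq] at hs
      rcases hs with hs | ⟨hs1, ρ, hρ, h2, h3⟩
      · omega
      · rw [hs0 s hs1 ρ (List.mem_toFinset.2 hρ)] at h3
        refine hk (pt ρ) h2 ?_
        have := ht ρ k h3
        rwa [← seg_pt ρ, seg_take_le _ (by rw [mem_strs.1 hρ]; omega)] at this
    · intro n w hw
      simp only [D, not_exists, Bool.or_eq_true, decide_eq_true_eq, Bool.and_eq_true,
        List.any_eq_true, beq_iff_eq, not_or, not_and] at hw
      obtain ⟨s, hs1, hs2⟩ := ((hlim (seg x (m w))).and (eventually_ge_atTop (t w))).exists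
      have h1 := (hw s).2 hs2 (seg x (m w)) (mem_strs.2 (by simp))
      rw [seg_getD x (by have := (hw 0).1; omega), hs1, hxT] at h1
      cases hb : b w <;> cases hxn : x n <;> simp_all
  · rintro ⟨g, hg, hlim⟩
    classical
    refine ⟨fun τ => decide (seg x τ.length = τ),
      ⟨fun τ s => (List.range τ.length).map (fun n => g n s) == τ, ?_, fun τ => ?_⟩, ?_, ?_⟩
    · refine CFP.beq (CFP.map ?_ (by fun_prop)) (by fun_prop)
      exact CFP.comp (g := fun r : (List Bool × ℕ) × ℕ => (r.2, r.1.2)) hg (by fun_prop)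
    · have h1 : ∀ n ∈ Finset.range τ.length, ∀ᶠ s in atTop, g n s = x n := fun n _ => hlim n
      filter_upwards [(Finset.eventually_all _).2 h1] with s hs
      have : (List.range τ.length).map (fun n => g n s) = seg x τ.length :=
        List.map_congr_left fun n hn => hs n (by simpa using hn)
      rw [this, Bool.eq_iff_iff]; simp
    · intro σ n hσ
      simp only [decide_eq_true_eq] at hσ ⊢
      exact mem_cyl_of_take (ρ := σ) (σ := σ.take n) (by simp [List.take_take]) hσ
    · ext y
      simp only [mem_singleton_iff, paths, mem_ofPred_eq, decide_eq_true_eq, seg_length,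
        seg_eq_iff]
      exact ⟨fun h _ _ _ => by rw [h], fun h => funext fun i => (h (i + 1) i (by omega)).symm⟩

end Pool.Agent.P.MP_54474a_lc
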