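import Pool.Agent.P.MP_54474a_lc.Homeo

namespace Pool.Agent.P.MP_54474a_lc

open Filter Set Topology Pool.Agent.Lib.Helper43

attribute [local irreducible] Computable

/-- The invariant property enjoyed by classes of width at most `k`. -/
def Wk (P : Set (ℕ → Bool)) (A : ℕ → Bool) (k : ℕ) : Prop :=
  ∀ B : ℕ → Set (ℕ → Bool), (∀ i, IsPi01 (B i)) → Monotone B → B (k + 1) ⊆ P → A ∈ B 0 →
    ∃ Q : ℕ → Set (ℕ → Bool), (∀ i, IsPi01 (Q i)) ∧
      (∀ i ≤ k, B (i + 1) \ B i ⊆ interior (Q i)) ∧ ∀ x ∈ P, ¬ ∀ i ≤ k, x ∈ interior (Q i)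

theorem wk_of_width {P : Set (ℕ → Bool)} {A : ℕ → Bool} {k : ℕ} (hP : IsPi01 P)
    (nd : interior P = ∅) (hw : WidthLE P A k) : Wk P A k := by
  intro B hB hmono hsub hA
  have key : ∀ i, ∃ Q, IsPi01 Q ∧ ∀ x ∈ P, x ∈ interior Q ↔
      ∃ τ, x ∈ cyl τ ∧ ¬ cyl τ ⊆ (B (i + 1))ᶜ ∧ cyl τ ⊆ (B i)ᶜ := by
    intro i
    obtain ⟨R, hR, h⟩ := (hB i).sig_disjoint
    have hD : Sig (fun q : List Bool × ℕ => cyl q.1 ⊆ (B (i + 1))ᶜ ∨ (!R q.1 q.2) = true) :=
      ((hB (i + 1)).sig_disjoint.comp (by fun_prop)).or (Sig.of_bool (CFP.not hR))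
    obtain ⟨Q, hQ, h'⟩ := realize hP nd (c := fun q : List Bool × ℕ => q.1) (by fun_prop) hD
    refine ⟨Q, hQ, fun x hx => (h' x hx).trans ⟨?_, ?_⟩⟩
    · rintro ⟨⟨τ, w⟩, h1, h2⟩
      push Not at h1
      exact ⟨τ, h2, h1.1, (h τ).2 ⟨w, by simpa using h1.2⟩⟩
    · rintro ⟨τ, h1, h2, h3⟩
      obtain ⟨w, hw⟩ := (h τ).1 h3
      exact ⟨(τ, w), by simp [h2, hw], h1⟩
  choose Q hQ hQ' using key
  refine ⟨Q, hQ, fun i hi x hx => ?_, fun x hx hall => ?_⟩
  · obtain ⟨n, hn⟩ := exists_cyl_disjoint (hB i).isClosed hx.2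
    exact (hQ' i x (hsub (hmono (by omega) hx.1))).2
      ⟨_, self_mem_cyl x n, fun h => h (self_mem_cyl x n) hx.1, hn⟩
  · have h1 : ∀ i : Fin (k + 1), ∃ τ y, x ∈ cyl τ ∧ y ∈ cyl τ ∧ y ∈ B (i + 1) ∧
        cyl τ ⊆ (B i)ᶜ := by
      intro i
      obtain ⟨τ, h1, h2, h3⟩ := (hQ' i x hx).1 (hall i (by omega))
      obtain ⟨y, hy, hy'⟩ := not_subset.1 h2
      exact ⟨τ, y, h1, hy, by simpa using hy', h3⟩
    choose τ y hxτ hyτ hyB hτ using h1
    have hxA : x ≠ A := fun h => hτ 0 (hxτ 0) (h ▸ hA)
    have hex : ∃ n, x n ≠ A n := Function.ne_iff.1 hxA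
    classical
    let n := Nat.find hex
    have hlen : ∀ i, n < (τ i).length := by
      intro i
      by_contra hc
      refine hτ i (a := A) ?_ (hmono (Nat.zero_le _) hA)
      rw [cyl_eq_of_mem (hxτ i)]
      exact mem_cyl_seg.2 fun j hj => (not_not.1 (Nat.find_min hex (by omega))).symm
    have hagree : ∀ i, ∀ j ≤ n, y i j = x j := by
      intro i j hj
      have := hyτ i
      rw [cyl_eq_of_mem (hxτ i)] at this
      exact mem_cyl_seg.1 this j (lt_of_le_of_lt hj (hlen i))
    have hinj : Function.Injective y := by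
      have : ∀ i j : Fin (k + 1), i < j → y i ≠ y j := fun i j hij h =>
        hτ j (hyτ j) (hmono (show (i : ℕ) + 1 ≤ j from hij) (h ▸ hyB i))
      intro i j h
      rcases lt_trichotomy i j with h1 | h1 | h1
      · exact (this i j h1 h).elim
      · exact h1
      · exact (this j i h1 h.symm).elim
    have hle : (range y).encard ≤ k := by
      refine le_trans (encard_le_encard ?_) (hw n)
      rintro _ ⟨i, rfl⟩
      refine ⟨hsub (hmono (by omega) (hyB i)), fun j hj => ?_, ?_⟩
      · rw [hagree i j hj.le]; exact not_not.1 (Nat.find_min hex hj)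
      · rw [hagree i n le_rfl]; exact Nat.find_spec hex
    rw [← image_univ, hinj.encard_image, encard_univ] at hle
    simp only [ENat.card_eq_coe_fintype_card, Fintype.card_fin, Nat.cast_le] at hle
    omega

theorem Wk.transfer {Φ : EPi ≃o EPi} {h : (ℕ → Bool) ≃ₜ (ℕ → Bool)}
    (H : ∀ Q : EPi, (Φ Q).1 = h '' Q.1) {P : Set (ℕ → Bool)} {A : ℕ → Bool} {k : ℕ}
    (hW : Wk (h '' P) (h A) k) : Wk P A k := by
  intro B hB hmono hsub hA
  obtain ⟨Q, hQ, h1, h2⟩ := hW (fun i => h '' B i) (fun i => isPi01_image H (hB i))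
    (fun i j hij => image_mono (hmono hij)) (image_mono hsub) ⟨A, hA, rfl⟩
  have key : ∀ i x, x ∈ interior (h.symm '' Q i) ↔ h x ∈ interior (Q i) := by
    intro i x
    rw [← h.symm.image_interior, h.image_symm]; rfl
  refine ⟨fun i => h.symm '' Q i, fun i => isPi01_image (symm_induced H) (hQ i),
    fun i hi x hx => (key i x).2 (h1 i hi ⟨⟨x, hx.1, rfl⟩, ?_⟩), fun x hx hall => ?_⟩
  · rintro ⟨z, hz, hz'⟩
    exact hx.2 (h.injective hz' ▸ hz)
  · exact h2 (h x) ⟨x, hx, rfl⟩ fun i hi => (key i x).1 (hall i hi)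

/-! ### The diagonal classes -/

/-- Number of ones in a string. -/
def cnt (y : List Bool) : ℕ := (y.filter (fun b => b)).length

/-- Position of the first one in a string. -/
def fo (y : List Bool) : ℕ := ((List.range y.length).find? (fun j => y.getD j false)).getD 0

/-- The list of codes attached to the column of a string. -/
def codes (y : List Bool) : List ℕ := Denumerable.ofNat (List ℕ) (fo y)

/-- The code watched by a string. -/
def code (y : List Bool) : ℕ := (codes y).getD (cnt y - 1) 0

/-- Code `c` accepts `τ` within `s` steps. -/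
def acc (c : ℕ) (τ : List Bool) (s : ℕ) : Bool :=
  (Nat.Partrec.Code.evaln s (Denumerable.ofNat Nat.Partrec.Code c) (Encodable.encode τ)).isSome

/-- All levels below `p.unpair.1` are accepted within `p.unpair.2` steps. -/
def allAcc (c : ℕ) (y : List Bool) (p : ℕ) : Bool :=
  (List.range p.unpair.1).all (fun l => acc c (y.take l) p.unpair.2)

/-- The decidable part of the validity condition. -/
def dec (y : List Bool) : Bool :=
  decide (cnt y ≤ (codes y).length) && allAcc (code y) y y.length &&
    (List.range y.length).all (fun p' =>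
      !((List.range y.length).all (fun j => decide (j < p') || !y.getD j false) &&
        (p'.unpair.1 == y.length.unpair.1) && allAcc (code y) y p'))

@[fun_prop] theorem comp_cnt {α : Type} [Primcodable α] {f : α → List Bool}
    (hf : Computable f) : Computable (fun a => cnt (f a)) := by
  unfold cnt; fun_prop

@[fun_prop] theorem comp_fo {α : Type} [Primcodable α] {f : α → List Bool}
    (hf : Computable f) : Computable (fun a => fo (f a)) := by
  unfold fo; fun_prop

@[fun_prop] theorem comp_codes {α : Type} [Primcodable α] {f : α → List Bool}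
    (hf : Computable f) : Computable (fun a => codes (f a)) := by
  unfold codes; fun_prop

@[fun_prop] theorem comp_code {α : Type} [Primcodable α] {f : α → List Bool}
    (hf : Computable f) : Computable (fun a => code (f a)) := by
  unfold code; fun_prop

@[fun_prop] theorem comp_acc {α : Type} [Primcodable α] {c s : α → ℕ} {f : α → List Bool}
    (hc : Computable c) (hf : Computable f) (hs : Computable s) :
    Computable (fun a => acc (c a) (f a) (s a)) := by
  unfold acc; fun_prop

@[fun_prop] theorem comp_allAcc {α : Type} [Primcodable α] {c s : α → ℕ} {f : α → List Bool}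
    (hc : Computable c) (hf : Computable f) (hs : Computable s) :
    Computable (fun a => allAcc (c a) (f a) (s a)) := by
  unfold allAcc; fun_prop

theorem comp_dec : Computable dec := by
  unfold dec; fun_prop

/-- The validity condition for placing a one after the string `y`. -/
def Ok (y : List Bool) : Prop :=
  cnt y = 0 ∨ (dec y = true ∧ ∀ s, acc (code y) (y.take y.length.unpair.1) s = false)

/-- The diagonal class. -/
def Pinf : Set (ℕ → Bool) := {x | ∀ p, x p = true → Ok (seg x p)}

theorem isPi01_of_sig_one {W : List Bool → Prop} (hW : Sig W) :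
    IsPi01 {x | ∀ p, x p = true → ¬ W (seg x p)} := by
  have h1 : Sig (fun τ : List Bool => (τ.getD (τ.length - 1) false) = true ∧
      W (τ.take (τ.length - 1))) := (Sig.of_bool (by fun_prop)).and (hW.comp (by fun_prop))
  convert isPi01_of_sig h1 using 1
  ext x
  simp only [mem_ofPred_eq, seg_length, not_and]
  constructor
  · intro H n hn
    cases n with
    | zero => simp [seg] at hn
    | succ n =>
      rw [seg_getD x (by omega)] at hn
      rw [seg_take_le x (by omega)]
      exact H _ hn
  · intro H p hp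
    have := H (p + 1) (by rw [seg_getD x (by omega)]; simpa using hp)
    rwa [seg_take_le x (by omega)] at this

theorem isPi01_Pinf : IsPi01 Pinf := by
  have h1 : Sig (fun y : List Bool => (cnt y != 0) = true ∧ ((!dec y) = true ∨
      ∃ s, acc (code y) (y.take y.length.unpair.1) s = true)) :=
    (Sig.of_bool (by fun_prop)).and ((Sig.of_bool (CFP.not comp_dec)).or
      (Sig.ex (Sig.of_bool (by fun_prop))))
  convert isPi01_of_sig_one h1 using 1
  ext x
  simp only [Pinf, Ok, mem_ofPred_eq]
  refine forall_congr' fun p => imp_congr_right fun _ => ?_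
  by_cases h : cnt (seg x p) = 0 <;> simp [h]

/-- The set of positions of ones. -/
def ones (x : ℕ → Bool) : Set ℕ := {p | x p = true}

theorem cnt_seg (x : ℕ → Bool) (n : ℕ) :
    (cnt (seg x n) : ℕ∞) = (ones x ∩ Iio n).encard := by
  induction n with
  | zero => simp [cnt, seg]
  | succ n ih =>
    have h1 : seg x (n + 1) = seg x n ++ [x n] := by simp [seg, List.range_succ]
    by_cases h : x n = true
    · have h2 : ones x ∩ Iio (n + 1) = insert n (ones x ∩ Iio n) := by
        ext j
        simp only [ones, mem_inter_iff, mem_ofPred_eq, mem_Iio, mem_insert_iff]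
        constructor
        · rintro ⟨h1, h2⟩
          rcases Nat.lt_succ_iff_lt_or_eq.1 h2 with h3 | h3
          · exact Or.inr ⟨h1, h3⟩
          · exact Or.inl h3
        · rintro (rfl | ⟨h1, h2⟩)
          · exact ⟨h, by omega⟩
          · exact ⟨h1, by omega⟩
      rw [h2, encard_insert_of_notMem (by simp), ← ih, h1]
      simp [cnt, h]
    · have h2 : ones x ∩ Iio (n + 1) = ones x ∩ Iio n := by
        ext j
        simp only [ones, mem_inter_iff, mem_ofPred_eq, mem_Iio]
        constructor
        · rintro ⟨h4, h2⟩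
          rcases Nat.lt_succ_iff_lt_or_eq.1 h2 with h3 | h3
          · exact ⟨h4, h3⟩
          · exact (h (h3 ▸ h4)).elim
        · rintro ⟨h1, h2⟩
          exact ⟨h1, by omega⟩
      rw [h2, ← ih, h1]
      simp [cnt, h]

theorem encard_ones_le {x : ℕ → Bool} {K : ℕ} (h : ∀ n, cnt (seg x n) ≤ K) :
    (ones x).encard ≤ K := by
  by_contra hc
  push Not at hc
  obtain ⟨t, ht, ht'⟩ := exists_subset_encard_eq (Order.add_one_le_of_lt hc)
  have hfin : t.Finite := finite_of_encard_eq_coe (k := K + 1) (by rw [ht']; norm_cast)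
  obtain ⟨n, hn⟩ := hfin.bddAbove
  have h1 : t ⊆ ones x ∩ Iio (n + 1) := fun j hj => ⟨ht hj, Nat.lt_succ_of_le (hn hj)⟩
  have h2 := encard_le_encard h1
  rw [ht', ← cnt_seg] at h2
  have h3 := h (n + 1)
  norm_cast at h2
  omega

/-- Points with at most `K` ones. -/
def Few (K : ℕ∞) : Set (ℕ → Bool) := {x | (ones x).encard ≤ K}

theorem isPi01_Few (K : ℕ∞) : IsPi01 (Few K) := by
  induction K with
  | top => convert isPi01_univ using 1; ext x; simp [Few]
  | coe K =>
    convert isPi01_of_sig (Sig.of_bool (f := fun τ : List Bool => decide (K < cnt τ))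
      (by fun_prop)) using 1
    ext x
    simp only [Few, mem_ofPred_eq, decide_eq_true_eq, not_lt]
    refine ⟨fun h n => ?_, encard_ones_le⟩
    have := (encard_le_encard (inter_subset_left (t := Iio n))).trans h
    rw [← cnt_seg] at this
    exact_mod_cast this

/-- `x` has its first one at position `e`. -/
def Col (e : ℕ) (x : ℕ → Bool) : Prop := (∀ i < e, x i = false) ∧ x e = true

theorem fo_seg {e n : ℕ} {x : ℕ → Bool} (h : Col e x) (hn : e < n) : fo (seg x n) = e := by
  have : (List.range n).find? (fun j => (seg x n).getD j false) = some e := by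
    rw [List.find?_range_eq_some]
    refine ⟨by rw [seg_getD x hn]; exact h.2, List.mem_range.2 hn, fun j hj => ?_⟩
    rw [seg_getD x (by omega), h.1 j hj]; rfl
  rw [fo, seg_length, this]; rfl

theorem cnt_seg_pos {e n : ℕ} {x : ℕ → Bool} (h : x e = true) (hn : e < n) :
    cnt (seg x n) ≠ 0 := by
  intro hc
  have := cnt_seg x n
  rw [hc, Nat.cast_zero, eq_comm, encard_eq_zero] at this
  exact (this ▸ (show e ∈ ones x ∩ Iio n from ⟨h, hn⟩) : e ∈ (∅ : Set ℕ))

theorem allAcc_seg {c n p : ℕ} {x : ℕ → Bool} (h : p ≤ n) :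
    allAcc c (seg x n) p = true ↔ ∀ l < p.unpair.1, acc c (seg x l) p.unpair.2 = true := by
  simp only [allAcc, List.all_eq_true, List.mem_range]
  refine forall_congr' fun l => imp_congr_right fun hl => ?_
  rw [seg_take_le x (by have := Nat.unpair_left_le p; omega)]

theorem dec_seg {p : ℕ} {x : ℕ → Bool} : dec (seg x p) = true ↔
    cnt (seg x p) ≤ (codes (seg x p)).length ∧
    (∀ l < p.unpair.1, acc (code (seg x p)) (seg x l) p.unpair.2 = true) ∧
    ∀ p' < p, (∀ j < p, p' ≤ j → x j = false) → p'.unpair.1 = p.unpair.1 →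
      ¬ ∀ l < p'.unpair.1, acc (code (seg x p)) (seg x l) p'.unpair.2 = true := by
  simp only [dec, seg_length, Bool.and_eq_true, decide_eq_true_eq, allAcc_seg le_rfl,
    List.all_eq_true, List.mem_range, and_assoc, Bool.not_eq_eq_eq_not, Bool.not_true]
  refine and_congr_right fun _ => and_congr_right fun _ => forall_congr' fun p' =>
    imp_congr_right fun hp' => ?_
  rw [← Bool.not_eq_true]
  simp only [Bool.and_eq_true, List.all_eq_true, List.mem_range, Bool.or_eq_true,
    decide_eq_true_eq, Bool.not_eq_eq_eq_not, Bool.not_true, beq_iff_eq, allAcc_seg hp'.le,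
    not_and, and_imp]
  refine imp_congr_left (forall_congr' fun j => imp_congr_right fun hj => ?_)
  rw [seg_getD x hj]
  constructor
  · rintro (h | h) h'
    · omega
    · exact h
  · intro h
    by_cases h' : j < p'
    · exact Or.inl h'
    · exact Or.inr (h (by omega))

/-- A point has at most one child. -/
theorem child_unique {e p p' : ℕ} {x : ℕ → Bool} (hc : Col e x) (hp : e < p) (hpp : p < p')
    (hz : ∀ j < p', p ≤ j → x j = false) (h1 : Ok (seg x p)) (h2 : Ok (seg x p')) : False := by
  have hcnt : cnt (seg x p) = cnt (seg x p') := by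
    have : ones x ∩ Iio p = ones x ∩ Iio p' := by
      ext j
      simp only [ones, mem_inter_iff, mem_ofPred_eq, mem_Iio]
      refine and_congr_right fun hj => ⟨fun h => by omega, fun h => ?_⟩
      by_contra hh
      rw [hz j h (by omega)] at hj; exact absurd hj (by simp)
    have h3 := cnt_seg x p
    rw [this, ← cnt_seg] at h3
    exact_mod_cast h3
  have hcode : code (seg x p) = code (seg x p') := by
    simp only [code, codes, fo_seg hc hp, fo_seg hc (hp.trans hpp), hcnt]
  obtain ⟨d1, g1⟩ := h1.resolve_left (cnt_seg_pos hc.2 hp)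
  obtain ⟨d2, g2⟩ := h2.resolve_left (cnt_seg_pos hc.2 (hp.trans hpp))
  rw [dec_seg] at d1 d2
  rw [seg_length, seg_take_le x (Nat.unpair_left_le _)] at g1 g2
  rw [hcode] at d1 g1
  rcases lt_trichotomy p.unpair.1 p'.unpair.1 with h | h | h
  · have := d2.2.1 _ h
    rw [g1] at this; exact absurd this (by simp)
  · exact d2.2.2 p hpp hz h d1.2.1
  · have := d1.2.1 _ h
    rw [g2] at this; exact absurd this (by simp)

theorem ones_ssubset {e m : ℕ} {x y : ℕ → Bool} (hx : x ∈ Pinf) (hy : y ∈ Pinf) (hcx : Col e x)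
    (hcy : Col e y) (hm : ∀ i < m, x i = y i) (h1 : x m = true) (h2 : y m = false) :
    ones y ⊂ ones x := by
  classical
  have hem : e < m := by
    by_contra hc
    rcases (not_lt.1 hc).lt_or_eq with h | h
    · rw [hcx.1 m h] at h1; exact absurd h1 (by simp)
    · rw [h, hcy.2] at h2; exact absurd h2 (by simp)
  have hno : ∀ j, m ≤ j → y j = false := by
    by_contra hc
    push Not at hc
    have hex : ∃ j, m ≤ j ∧ y j = true := let ⟨j, h, h'⟩ := hc; ⟨j, h, by simpa using h'⟩
    have hs := Nat.find_spec hex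
    have hlt : m < Nat.find hex := lt_of_le_of_ne hs.1 fun h => by
      rw [← h, h2] at hs; exact absurd hs.2 (by simp)
    refine child_unique hcy hem hlt (fun j hj hj' => ?_) ?_ (hy _ hs.2)
    · have := Nat.find_min hex hj
      simpa [hj'] using this
    · rw [← seg_eq_iff.2 hm]; exact hx m h1
  refine ⟨fun j hj => ?_, fun h => ?_⟩
  · by_cases hjm : j < m
    · exact (hm j hjm).trans hj
    · have := hno j (by omega)
      rw [show y j = true from hj] at this; exact absurd this (by simp)
  · have := h (show m ∈ ones x from h1)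
    rw [ones, mem_ofPred_eq, h2] at this; exact absurd this (by simp)

theorem ones_le_of_col {e : ℕ} {x : ℕ → Bool} (hx : x ∈ Pinf) (hc : Col e x) :
    (ones x).encard ≤ ((Denumerable.ofNat (List ℕ) e).length + 1 : ℕ) := by
  refine encard_ones_le fun n => ?_
  induction n with
  | zero => simp [cnt, seg]
  | succ n ih =>
    have h1 : seg x (n + 1) = seg x n ++ [x n] := by simp [seg, List.range_succ]
    by_cases h : x n = true
    · have h2 : cnt (seg x (n + 1)) = cnt (seg x n) + 1 := by rw [h1]; simp [cnt, h]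
      rw [h2]
      rcases hx n h with h3 | ⟨h3, -⟩
      · omega
      · by_cases hen : e < n
        · have := (dec_seg.1 h3).1
          rw [codes, fo_seg hc hen] at this; omega
        · have : ones x ∩ Iio n = ∅ := by
            rw [eq_empty_iff_forall_notMem]
            rintro j ⟨hj, hj'⟩
            have := hc.1 j (lt_of_lt_of_le hj' (not_lt.1 hen))
            rw [show x j = true from hj] at this; exact absurd this (by simp)
          have h4 := cnt_seg x n
          rw [this, encard_empty] at h4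
          have : cnt (seg x n) = 0 := by exact_mod_cast h4
          omega
    · have h2 : cnt (seg x (n + 1)) = cnt (seg x n) := by rw [h1]; simp [cnt, h]
      rw [h2]; exact ih

theorem col_injOn (e : ℕ) :
    InjOn (fun x => (ones x).encard) {x | x ∈ Pinf ∧ Col e x} := by
  classical
  intro x hx y hy hxy
  by_contra hne
  have hex : ∃ m, x m ≠ y m := Function.ne_iff.1 hne
  have hm : ∀ i < Nat.find hex, x i = y i := fun i hi => not_not.1 (Nat.find_min hex hi)
  have hs := Nat.find_spec hex
  have fx : (ones x).Finite := finite_of_encard_le_coe (ones_le_of_col hx.1 hx.2)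
  have fy : (ones y).Finite := finite_of_encard_le_coe (ones_le_of_col hy.1 hy.2)
  by_cases h : x (Nat.find hex) = true
  · have := fy.encard_lt_encard (ones_ssubset hx.1 hy.1 hx.2 hy.2 hm h (by simpa [h] using hs))
    exact this.ne' hxy
  · have := fx.encard_lt_encard (ones_ssubset hy.1 hx.1 hy.2 hx.2
      (fun i hi => (hm i hi).symm) (by simpa [h] using hs) (by simpa using h))
    exact this.ne hxy

theorem col_encard_le (e : ℕ) (K : ℕ) : {x | x ∈ Pinf ∩ Few K ∧ Col e x}.encard ≤ K := by
  have h1 : InjOn (fun x => (ones x).encard) {x | x ∈ Pinf ∩ Few K ∧ Col e x} :=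
    (col_injOn e).mono fun x hx => And.intro hx.1.1 hx.2
  rw [← h1.encard_image]
  have h2 : (fun x => (ones x).encard) '' {x | x ∈ Pinf ∩ Few K ∧ Col e x} ⊆
      (fun j : ℕ => ((j + 1 : ℕ) : ℕ∞)) '' (Finset.range K : Set ℕ) := by
    rintro _ ⟨x, hx, rfl⟩
    obtain ⟨j, hj, hj'⟩ := ENat.le_natCast_iff.1 hx.1.2
    have hne : (ones x).encard ≠ 0 := encard_ne_zero.2 ⟨e, hx.2.2⟩
    have : j ≠ 0 := fun h => hne (by rw [hj, h]; rfl)
    refine ⟨j - 1, by simp; omega, ?_⟩
    simp only [hj]; congr 1; omega
  refine (encard_le_encard h2).trans ((encard_image_le _ _).trans ?_)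
  rw [encard_coe_eq_coe_finsetCard]; simp

theorem col_finite (e : ℕ) : {x | x ∈ Pinf ∧ Col e x}.Finite := by
  refine (finite_of_encard_le_coe (col_encard_le e
    ((Denumerable.ofNat (List ℕ) e).length + 1))).subset fun x hx => ⟨⟨hx.1, ?_⟩, hx.2⟩
  exact ones_le_of_col hx.1 hx.2

theorem exists_col {x : ℕ → Bool} (hx : x ≠ fun _ => false) : ∃ e, Col e x := by
  classical
  have hex : ∃ e, x e = true := by
    obtain ⟨e, he⟩ := Function.ne_iff.1 hx
    exact ⟨e, by simpa using he⟩
  exact ⟨Nat.find hex, fun i hi => by simpa using Nat.find_min hex hi, Nat.find_spec hex⟩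

theorem widthLE_P (K : ℕ∞) : WidthLE (Pinf ∩ Few K) (fun _ => false) K := by
  intro n
  induction K with
  | top => exact le_top
  | coe K =>
    refine le_trans (encard_le_encard fun x hx => ?_) (col_encard_le n K)
    exact ⟨hx.1, hx.2.1, by simpa using hx.2.2⟩

/-- The point with a single one at `e`. -/
def unit (e : ℕ) : ℕ → Bool := fun i => decide (i = e)

theorem ones_unit (e : ℕ) : ones (unit e) = {e} := by ext; simp [ones, unit]

theorem unit_mem (e : ℕ) : unit e ∈ Pinf := by
  intro p hp
  have hpe : p = e := by simpa [unit] using hp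
  left
  have := cnt_seg (unit e) p
  rw [ones_unit, hpe, show ({e} : Set ℕ) ∩ Iio e = ∅ by simp, encard_empty] at this
  rw [hpe]; exact_mod_cast this

theorem zero_mem (K : ℕ∞) : (fun _ => false) ∈ Pinf ∩ Few K :=
  ⟨fun p hp => absurd hp (by simp), by simp [Few, ones]⟩

theorem countable_P (K : ℕ∞) : (Pinf ∩ Few K).Countable := by
  refine ((countable_iUnion fun e => (col_finite e).countable).insert (fun _ => false)).mono ?_
  intro x hx
  by_cases h : x = fun _ => false
  · exact Or.inl h
  · obtain ⟨e, he⟩ := exists_col h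
    exact Or.inr (mem_iUnion.2 ⟨e, hx.1, he⟩)

theorem derivedSet_P {K : ℕ∞} (hK : 1 ≤ K) :
    derivedSet (Pinf ∩ Few K) = {fun _ => false} := by
  ext x
  rw [mem_singleton_iff]
  constructor
  · intro hx
    by_contra hne
    obtain ⟨e, he⟩ := exists_col hne
    have h1 : AccPt x (𝓟 (cyl (seg x (e + 1)) ∩ (Pinf ∩ Few K))) :=
      AccPt.nhds_inter hx ((isOpen_cyl _).mem_nhds (self_mem_cyl x _))
    have h2 : (cyl (seg x (e + 1)) ∩ (Pinf ∩ Few K)).Finite := by
      refine (col_finite e).subset fun y hy => ⟨hy.2.1, fun i hi => ?_, ?_⟩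
      · rw [mem_cyl_seg.1 hy.1 i (by omega)]; exact he.1 i hi
      · rw [mem_cyl_seg.1 hy.1 e (by omega)]; exact he.2
    exact Set.Infinite.of_accPt h1 h2
  · rintro rfl
    rw [accPt_iff_cyl]
    intro n
    refine ⟨unit n, ⟨unit_mem n, by simpa [Few, ones_unit] using hK⟩,
      mem_cyl_seg.2 fun i hi => by simp [unit]; omega, fun h => ?_⟩
    simpa [unit] using congrFun h n

theorem acc_mono {c : ℕ} {τ : List Bool} {s t : ℕ} (hst : s ≤ t) (h : acc c τ s = true) :
    acc c τ t = true := by
  obtain ⟨y, hy⟩ := Option.isSome_iff_exists.1 h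
  exact Option.isSome_iff_exists.2 ⟨y, Nat.Partrec.Code.evaln_mono hst hy⟩

/-- Existence of a child. -/
theorem exists_child {e j : ℕ} {x : ℕ → Bool} (hx : x ∈ Pinf) (hc : Col e x)
    (hj : (ones x).encard = (j + 1 : ℕ)) (hlen : j < (Denumerable.ofNat (List ℕ) e).length)
    (hg : ∃ g, ∀ s, acc ((Denumerable.ofNat (List ℕ) e).getD j 0) (seg x g) s = false) :
    ∃ p g, g ≤ p ∧ (∀ i, p ≤ i → x i = false) ∧ Function.update x p true ∈ Pinf ∧
      ∀ s, acc ((Denumerable.ofNat (List ℕ) e).getD j 0) (seg x g) s = false := by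
  classical
  set c := (Denumerable.ofNat (List ℕ) e).getD j 0 with hcdef
  let g := Nat.find hg
  have h1 : ∀ l ∈ Finset.range g, ∀ᶠ s in atTop, acc c (seg x l) s = true := by
    intro l hl
    have := Nat.find_min hg (Finset.mem_range.1 hl)
    push Not at this
    obtain ⟨s, hs⟩ := this
    filter_upwards [eventually_ge_atTop s] with t ht using acc_mono ht (by simpa using hs)
  obtain ⟨N, hN⟩ := (finite_of_encard_eq_coe hj).bddAbove
  have hex : ∃ p, (∀ i, p ≤ i → x i = false) ∧ p.unpair.1 = g ∧
      ∀ l < p.unpair.1, acc c (seg x l) p.unpair.2 = true := by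
    obtain ⟨s, hs1, hs2⟩ :=
      (((Finset.eventually_all _).2 h1).and (eventually_ge_atTop (N + 1))).exists
    refine ⟨Nat.pair g s, fun i hi => ?_, by simp, ?_⟩
    · by_contra hne
      have h2 := hN (show i ∈ ones x by simpa [ones] using hne)
      have h3 := Nat.right_le_pair g s
      omega
    · simpa using hs1
  set p := Nat.find hex with hp
  obtain ⟨hp1, hp2, hp3⟩ := Nat.find_spec hex
  rw [← hp] at hp1 hp2 hp3
  have hep : e < p := by
    by_contra hcon
    have := hp1 e (not_lt.1 hcon)
    rw [hc.2] at this; exact absurd this (by simp)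
  have hcnt : cnt (seg x p) = j + 1 := by
    have h2 := cnt_seg x p
    rw [inter_eq_left.2, hj] at h2
    · exact_mod_cast h2
    · intro i hi
      by_contra hcon
      have := hp1 i (by simpa using hcon)
      rw [show x i = true from hi] at this; exact absurd this (by simp)
  have hcode : code (seg x p) = c := by simp [code, codes, fo_seg hc hep, hcnt, hcdef]
  refine ⟨p, g, hp2 ▸ Nat.unpair_left_le p, hp1, fun q hq => ?_, Nat.find_spec hg⟩
  have hqp : q ≤ p := by
    by_contra hcon
    rw [Function.update_of_ne (by omega), hp1 q (by omega)] at hq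
    exact absurd hq (by simp)
  have hseg : seg (Function.update x p true) q = seg x q :=
    seg_eq_iff.2 fun i hi => Function.update_of_ne (by omega) _ _
  rw [hseg]
  rcases hqp.lt_or_eq with h | h
  · rw [Function.update_of_ne h.ne] at hq; exact hx q hq
  · rw [h]
    right
    rw [dec_seg, hcode, seg_length, seg_take_le x (Nat.unpair_left_le _), hp2]
    refine ⟨⟨by rw [hcnt, codes, fo_seg hc hep]; omega, hp2 ▸ hp3, fun p' hp' hz hu hall => ?_⟩,
      Nat.find_spec hg⟩
    refine Nat.find_min hex hp' ⟨fun i hi => ?_, hu, hall⟩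
    by_cases hip : i < p
    · exact hz i hip hi
    · exact hp1 i (not_lt.1 hip)

theorem not_wk {P : Set (ℕ → Bool)} {k : ℕ} (hP : Pinf ∩ Few (k + 1 : ℕ) ⊆ P) :
    ¬ Wk P (fun _ => false) k := by
  intro hW
  obtain ⟨Q, hQ, h1, h2⟩ := hW (fun i => Pinf ∩ Few i) (fun i => isPi01_Pinf.inter (isPi01_Few i))
    (fun i j hij x hx => And.intro hx.1
      (le_trans (b := (i : ℕ∞)) (c := (j : ℕ∞)) hx.2 (by exact_mod_cast hij))) hP (zero_mem _)
  choose c hc using fun i => (hQ i).sig_not_subset.exists_code
  let e := Encodable.encode ((List.range k).map c)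
  have he : Denumerable.ofNat (List ℕ) e = (List.range k).map c := Denumerable.ofNat_encode _
  have hlayer : ∀ j ≤ k, ∀ x ∈ Pinf, (ones x).encard = (j + 1 : ℕ) → x ∈ interior (Q j) := by
    intro j hj x hx hx'
    refine h1 j hj ⟨⟨hx, hx'.le⟩, fun h => ?_⟩
    have := h.2
    rw [Few, mem_ofPred_eq, hx'] at this
    norm_cast at this
    omega
  have key : ∀ j ≤ k, ∃ x ∈ Pinf, Col e x ∧ (ones x).encard = (j + 1 : ℕ) ∧
      ∃ N, x N = true ∧ ∀ i < j, cyl (seg x N) ⊆ Q i := by
    intro j
    induction j with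
    | zero =>
      intro _
      refine ⟨unit e, unit_mem e, ⟨fun i hi => by simp [unit]; omega, by simp [unit]⟩,
        by simp [ones_unit], e, by simp [unit], fun i hi => by omega⟩
    | succ j ih =>
      intro hj
      obtain ⟨x, hx, hcol, hcard, N, hN, hsub⟩ := ih (by omega)
      have hcj : (Denumerable.ofNat (List ℕ) e).getD j 0 = c j := by
        rw [he, List.getD_eq_getElem?_getD, List.getElem?_map, List.getElem?_range (by omega)]
        rfl
      have hgood : ∀ g, (∀ s, acc (c j) (seg x g) s = false) ↔ cyl (seg x g) ⊆ Q j := by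
        intro g
        have := (hc j (seg x g)).not
        simp only [not_not, not_exists, Bool.not_eq_true] at this
        exact this.symm
      obtain ⟨g0, hg0⟩ := mem_interior_iff_cyl.1 (hlayer j (by omega) x hx hcard)
      obtain ⟨p, g, hgp, hz, hmem, hg⟩ := exists_child hx hcol hcard (by rw [he]; simpa using hj)
        ⟨g0, by rw [hcj]; exact (hgood g0).2 hg0⟩
      rw [hcj, hgood] at hg
      have hlt : ∀ i, x i = true → i < p := fun i hi => by
        by_contra hcon
        rw [hz i (not_lt.1 hcon)] at hi; exact absurd hi (by simp)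
      have hseg : seg (Function.update x p true) p = seg x p :=
        seg_eq_iff.2 fun i hi => Function.update_of_ne (by omega) _ _
      refine ⟨_, hmem, ⟨fun i hi => ?_, ?_⟩, ?_, p, by simp, fun i hi => ?_⟩
      · have := hlt e hcol.2
        rw [Function.update_of_ne (by omega)]; exact hcol.1 i hi
      · rw [Function.update_of_ne (hlt e hcol.2).ne]; exact hcol.2
      · have : ones (Function.update x p true) = insert p (ones x) := by
          ext i
          by_cases hi : i = p
          · simp [ones, hi]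
          · simp [ones, hi]
        rw [this, encard_insert_of_notMem (s := ones x) (fun h => lt_irrefl _ (hlt p h)), hcard]
        norm_cast
      · rw [hseg]
        rcases Nat.lt_succ_iff_lt_or_eq.1 hi with h | h
        · exact (cyl_seg_anti x (hlt N hN).le).trans (hsub i h)
        · rw [h]; exact (cyl_seg_anti x hgp).trans hg
  obtain ⟨x, hx, -, hcard, N, -, hsub⟩ := key k le_rfl
  refine h2 x (hP ⟨hx, hcard.le⟩) fun i hi => ?_
  rcases hi.lt_or_eq with h | h
  · exact mem_interior_iff_cyl.2 ⟨N, hsub i h⟩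
  · rw [h]; exact hlayer k le_rfl x hx hcard

theorem hierarchy (K : ℕ∞) (hK : 1 ≤ K) : ∃ P : EPi, P.1.Countable ∧
    derivedSet P.1 = {fun _ => false} ∧ WidthLE P.1 (fun _ => false) K ∧
    ∀ (Q : EPi) (A : ℕ → Bool) (k : ℕ∞), derivedSet Q.1 = {A} → WidthLE Q.1 A k → k < K →
      ¬ Automorphic P Q := by
  refine ⟨⟨Pinf ∩ Few K, isPi01_Pinf.inter (isPi01_Few K)⟩, countable_P K, derivedSet_P hK,
    widthLE_P K, ?_⟩
  rintro Q A k hA hw hk ⟨Φ, hΦ⟩
  obtain ⟨h, H⟩ := exists_homeo Φ
  have hQ : Q.1 = h '' (Pinf ∩ Few K) := by rw [← hΦ, H]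
  lift k to ℕ using hk.ne_top
  have hA' : A = h (fun _ => false) := by
    rw [hQ, ← image_derivedSet, derivedSet_P hK, image_singleton] at hA
    exact (singleton_injective hA).symm
  have hW := wk_of_width Q.2
    (interior_eq_empty_of_rank_one (by rw [hA, derivedSet_singleton])) hw
  rw [hQ, hA'] at hW
  refine not_wk (k := k) (fun x hx => And.intro hx.1
    (le_trans (b := ((k + 1 : ℕ) : ℕ∞)) (c := K) hx.2 ?_)) (hW.transfer H)
  exact_mod_cast Order.add_one_le_of_lt hk

end Pool.Agent.P.MP_54474a_lc
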